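import Pool.Agent.W66.LR
import Pool.Agent.TH888.R.Mean

set_option autoImplicit false

/-!
# The mean of the indicator of a prime rough part over the reduced residues below `b ^ q`, with an error term
-/

open Filter Topology
open scoped Real

namespace Pool.Agent.K1H92.LD

open Pool.Agent.W66
open Pool.Agent.W66L
open Pool.Agent.H305R2 (roughPart SM SM_pos SMz mem_SMz ZZ VV sum_rough_eq sum_le_VV tail_le
  ZZ_le_exp ZZ_nonneg VV_nonneg VV_tendsto primesBelow_succ_eq inv_le_rpow hasSum_ZZ sum_le_ZZ log_nat_tendsto)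

/-- the prime number theorem for `π` with a relative error `1 / log` -/
lemma pi_rate : ∃ C : ℝ, 0 < C ∧ ∃ X0 : ℝ, 4 ≤ X0 ∧ ∀ x : ℝ, X0 ≤ x →
    |(Nat.primeCounting ⌊x⌋₊ : ℝ) * Real.log x / x - 1| ≤ C / Real.log x := by
  obtain ⟨C1, h1⟩ := (Chebyshev.primeCounting_sub_theta_div_log_isBigO).bound
  obtain ⟨C2, hC2, h2⟩ := Pool.Agent.H442R2.EHI.PntErrAux.thetaU 1
  obtain ⟨X1, hX1⟩ := eventually_atTop.1 h1
  refine ⟨|C1| + 2 * C2 + 1, by positivity, max X1 4, le_max_right _ _, fun x hx => ?_⟩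
  have hx4 : 4 ≤ x := (le_max_right _ _).trans hx
  have hx0 : 0 < x := by linarith
  have hl0 : 0 < Real.log x := Real.log_pos (by linarith)
  have g1 := hX1 x ((le_max_left _ _).trans hx)
  rw [Real.norm_eq_abs, Real.norm_of_nonneg (show 0 ≤ x / Real.log x ^ 2 by positivity)] at g1
  have hfl2 : 2 ≤ ⌊x⌋₊ := Nat.le_floor (by push_cast; linarith)
  have g2 := h2 ⌊x⌋₊ hfl2
  rw [← Chebyshev.theta_eq_theta_coe_floor, pow_one] at g2
  have hfx : (⌊x⌋₊ : ℝ) ≤ x := Nat.floor_le hx0.le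
  have hfx2 : x < (⌊x⌋₊ : ℝ) + 1 := Nat.lt_floor_add_one x
  have hfl2' : (2 : ℝ) ≤ (⌊x⌋₊ : ℝ) := by exact_mod_cast hfl2
  have hlf : Real.log x / 2 ≤ Real.log (⌊x⌋₊ : ℝ) := by
    have h3 : Real.log x ≤ Real.log ((⌊x⌋₊ : ℝ) * (⌊x⌋₊ : ℝ)) := by
      apply Real.log_le_log hx0
      nlinarith
    rw [Real.log_mul (by linarith) (by linarith)] at h3
    linarith
  have hlf0 : 0 < Real.log (⌊x⌋₊ : ℝ) := by linarith
  have g3 : |Chebyshev.theta x - x| ≤ x * (2 * C2 / Real.log x) + 1 := by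
    have h4 : (⌊x⌋₊ : ℝ) / Real.log (⌊x⌋₊ : ℝ) ≤ x / (Real.log x / 2) :=
      div_le_div₀ hx0.le hfx (by positivity) hlf
    have h5 : C2 * ((⌊x⌋₊ : ℝ) / Real.log (⌊x⌋₊ : ℝ)) ≤ C2 * (x / (Real.log x / 2)) :=
      mul_le_mul_of_nonneg_left h4 hC2.le
    have e : C2 * (x / (Real.log x / 2)) = x * (2 * C2 / Real.log x) := by field_simp
    rw [e] at h5
    obtain ⟨h6, h7⟩ := abs_le.1 g2
    rw [abs_le]
    constructor <;> linarith
  have hxl : 1 / x ≤ 1 / Real.log x := by
    apply one_div_le_one_div_of_le hl0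
    have := Real.log_le_sub_one_of_pos hx0
    linarith
  have e1 : (Nat.primeCounting ⌊x⌋₊ : ℝ) * Real.log x / x - 1 =
      ((Nat.primeCounting ⌊x⌋₊ : ℝ) - Chebyshev.theta x / Real.log x) * (Real.log x / x) +
        (Chebyshev.theta x - x) / x := by
    field_simp
    ring
  rw [e1]
  refine (abs_add_le _ _).trans ?_
  rw [abs_mul, abs_of_nonneg (show 0 ≤ Real.log x / x by positivity), abs_div, abs_of_pos hx0]
  have h8 : |(Nat.primeCounting ⌊x⌋₊ : ℝ) - Chebyshev.theta x / Real.log x| * (Real.log x / x) ≤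
      |C1| / Real.log x := by
    calc |(Nat.primeCounting ⌊x⌋₊ : ℝ) - Chebyshev.theta x / Real.log x| * (Real.log x / x) ≤
        (C1 * (x / Real.log x ^ 2)) * (Real.log x / x) :=
          mul_le_mul_of_nonneg_right g1 (by positivity)
      _ ≤ (|C1| * (x / Real.log x ^ 2)) * (Real.log x / x) := by
          gcongr
          exact le_abs_self _
      _ = _ := by field_simp
  have h9 : |Chebyshev.theta x - x| / x ≤ 2 * C2 / Real.log x + 1 / Real.log x := by
    calc |Chebyshev.theta x - x| / x ≤ (x * (2 * C2 / Real.log x) + 1) / x :=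
          div_le_div_of_nonneg_right g3 hx0.le
      _ = 2 * C2 / Real.log x + 1 / x := by field_simp
      _ ≤ _ := by linarith
  calc _ ≤ |C1| / Real.log x + (2 * C2 / Real.log x + 1 / Real.log x) := add_le_add h8 h9
    _ = _ := by ring

lemma AA_upper' {b : ℕ} (hb : 2 ≤ b) {δ : ℝ} (hδ : 0 < δ) (hδ1 : δ < 1 / 4) {q : ℕ} {x0 : ℝ}
    (hx0 : ∀ x : ℝ, x0 ≤ x → (Nat.primeCounting ⌊x⌋₊ : ℝ) * Real.log x / x < 1 + δ)
    (h1 : max (x0 + 1) 3 ≤ δ * (Real.log b * q)) (h2 : b ≤ q) :
    AA b q ≤ (b : ℝ) ^ q * ((1 + δ) / ((1 - 2 * δ) * (Real.log b * q)) * VB b q +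
      Real.exp (-(δ * (Real.log b * q) / 2)) * ZZ q) := by
  set lb := Real.log b with hlb
  have hlb0 : 0 < lb := Real.log_pos (by exact_mod_cast hb)
  have hX0 : x0 + 1 ≤ δ * (lb * q) := (le_max_left _ _).trans h1
  have hX3 : 3 ≤ δ * (lb * q) := (le_max_right _ _).trans h1
  have hq0 : (0 : ℝ) < q := by exact_mod_cast (by omega : 0 < q)
  have hlq : 0 < lb * q := by positivity
  set X := b ^ q - 1 with hX
  have hbr : (2 : ℝ) ≤ b := by exact_mod_cast hb
  have hbq : (b : ℝ) ^ q = Real.exp (lb * q) := by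
    rw [mul_comm, Real.exp_nat_mul, hlb, Real.exp_log (by linarith)]
  have hXr : (X : ℝ) = (b : ℝ) ^ q - 1 := by
    rw [hX, Nat.cast_sub (Nat.one_le_pow _ _ (by omega))]
    push_cast
    rfl
  have hXle : (X : ℝ) ≤ (b : ℝ) ^ q := by linarith
  have hXnn : (0 : ℝ) ≤ X := Nat.cast_nonneg _
  set S := Real.exp (δ * (lb * q)) with hS
  have hS0 : 0 < S := Real.exp_pos _
  have hS1 : 1 ≤ S := Real.one_le_exp (by linarith)
  rw [AA_eq hb h2, ← Finset.sum_filter_add_sum_filter_not (SMz q (X : ℝ)) (fun s : ℕ => (s : ℝ) ≤ S),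
    mul_add]
  have hF : ∀ n ∈ (SMz q (X : ℝ)).filter (fun s : ℕ => (s : ℝ) ≤ S), n ∈ SM q := by
    intro n hn
    rw [Finset.mem_filter, mem_SMz hXnn] at hn
    exact hn.1.1
  apply add_le_add
  · have hterm : ∀ s ∈ (SMz q (X : ℝ)).filter (fun s : ℕ => (s : ℝ) ≤ S),
        (if s.Coprime b then (1 : ℝ) else 0) *
          (((Finset.Ioc 0 (X / s)).filter (fun l => l.Prime ∧ q < l)).card : ℝ) ≤
        (b : ℝ) ^ q * ((1 + δ) / ((1 - 2 * δ) * (lb * q))) * copHom b s := by
      intro s hs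
      rw [Finset.mem_filter, mem_SMz hXnn] at hs
      obtain ⟨⟨hs1, _⟩, hsS⟩ := hs
      have hs0 : 0 < s := SM_pos hs1
      have hs0' : (0 : ℝ) < s := by exact_mod_cast hs0
      have hs1' : (1 : ℝ) ≤ s := by exact_mod_cast hs0
      rw [copHom_apply]
      by_cases hc : s.Coprime b
      · rw [if_pos hc, if_pos hc, one_mul]
        refine (card_inner_le _ _).trans ?_
        set x := (X : ℝ) / s with hx
        have hfl : X / s = ⌊x⌋₊ := by rw [hx, Nat.floor_div_eq_div]
        have hxlow : Real.exp ((1 - 2 * δ) * (lb * q)) ≤ x := by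
          rw [hx, le_div_iff₀ hs0', hXr, hbq]
          have e1 : Real.exp (lb * q) = Real.exp ((1 - 2 * δ) * (lb * q)) *
              (Real.exp (δ * (lb * q)) * Real.exp (δ * (lb * q))) := by
            rw [← Real.exp_add, ← Real.exp_add]; ring_nf
          rw [e1, ← hS]
          have e2 : 1 ≤ Real.exp ((1 - 2 * δ) * (lb * q)) := Real.one_le_exp (by
            apply mul_nonneg (by linarith) hlq.le)
          have e3 : 4 ≤ S := by
            have := Real.add_one_le_exp (δ * (lb * q))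
            linarith
          have e4 : Real.exp ((1 - 2 * δ) * (lb * q)) * s ≤ Real.exp ((1 - 2 * δ) * (lb * q)) * S :=
            mul_le_mul_of_nonneg_left hsS (Real.exp_pos _).le
          have e5 : 1 ≤ Real.exp ((1 - 2 * δ) * (lb * q)) * S := by nlinarith
          have e6 : Real.exp ((1 - 2 * δ) * (lb * q)) * S * 4 ≤
              Real.exp ((1 - 2 * δ) * (lb * q)) * S * S :=
            mul_le_mul_of_nonneg_left e3 (by positivity)
          nlinarith
        have hx0' : 0 < x := lt_of_lt_of_le (Real.exp_pos _) hxlow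
        have hxx0 : x0 ≤ x := by
          have e1 := Real.add_one_le_exp ((1 - 2 * δ) * (lb * q))
          have e2 : δ * (lb * q) ≤ (1 - 2 * δ) * (lb * q) :=
            mul_le_mul_of_nonneg_right (by linarith) hlq.le
          linarith
        have hlogx : (1 - 2 * δ) * (lb * q) ≤ Real.log x := by
          rw [Real.le_log_iff_exp_le hx0']; exact hxlow
        have hpos : 0 < (1 - 2 * δ) * (lb * q) := mul_pos (by linarith) hlq
        have h3 := hx0 x hxx0
        rw [div_lt_iff₀ hx0'] at h3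
        have h4 : (Nat.primeCounting (X / s) : ℝ) ≤ (1 + δ) * x / ((1 - 2 * δ) * (lb * q)) := by
          rw [hfl, le_div_iff₀ hpos]
          have : (Nat.primeCounting ⌊x⌋₊ : ℝ) * ((1 - 2 * δ) * (lb * q)) ≤
            (Nat.primeCounting ⌊x⌋₊ : ℝ) * Real.log x := mul_le_mul_of_nonneg_left hlogx (by positivity)
          linarith
        refine h4.trans ?_
        have h5 : x ≤ (b : ℝ) ^ q * (s : ℝ)⁻¹ := by
          rw [hx, div_eq_mul_inv]
          exact mul_le_mul_of_nonneg_right hXle (by positivity)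
        calc (1 + δ) * x / ((1 - 2 * δ) * (lb * q)) ≤
            (1 + δ) * ((b : ℝ) ^ q * (s : ℝ)⁻¹) / ((1 - 2 * δ) * (lb * q)) := by gcongr
          _ = _ := by ring
      · rw [if_neg hc, if_neg hc]; simp
    refine (Finset.sum_le_sum hterm).trans ?_
    rw [← Finset.mul_sum]
    have h3 := sum_le_VB b q _ hF
    have hpos : 0 < (1 - 2 * δ) * (lb * q) := mul_pos (by linarith) hlq
    calc (b : ℝ) ^ q * ((1 + δ) / ((1 - 2 * δ) * (lb * q))) *
          ∑ s ∈ (SMz q (X : ℝ)).filter (fun s : ℕ => (s : ℝ) ≤ S), copHom b s ≤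
        (b : ℝ) ^ q * ((1 + δ) / ((1 - 2 * δ) * (lb * q))) * VB b q := by gcongr
      _ = _ := by ring
  · have hterm : ∀ s ∈ (SMz q (X : ℝ)).filter (fun s : ℕ => ¬ (s : ℝ) ≤ S),
        (if s.Coprime b then (1 : ℝ) else 0) *
          (((Finset.Ioc 0 (X / s)).filter (fun l => l.Prime ∧ q < l)).card : ℝ) ≤
        (b : ℝ) ^ q * (s : ℝ)⁻¹ := by
      intro s _
      have h3 : (((Finset.Ioc 0 (X / s)).filter (fun l => l.Prime ∧ q < l)).card : ℝ) ≤
          (X : ℝ) * (s : ℝ)⁻¹ := by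
        have h4 : ((Finset.Ioc 0 (X / s)).filter (fun l => l.Prime ∧ q < l)).card ≤ X / s := by
          refine (Finset.card_filter_le _ _).trans ?_
          rw [Nat.card_Ioc, Nat.sub_zero]
        rw [← div_eq_mul_inv]
        exact le_trans (by exact_mod_cast h4) Nat.cast_div_le
      have h5 : (if s.Coprime b then (1 : ℝ) else 0) ≤ 1 := by split_ifs <;> norm_num
      have h6 : (0 : ℝ) ≤ (if s.Coprime b then (1 : ℝ) else 0) := by split_ifs <;> norm_num
      calc _ ≤ 1 * ((X : ℝ) * (s : ℝ)⁻¹) := mul_le_mul h5 h3 (by positivity) (by norm_num)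
        _ ≤ _ := by
          rw [one_mul]
          exact mul_le_mul_of_nonneg_right hXle (by positivity)
    refine (Finset.sum_le_sum hterm).trans ?_
    rw [← Finset.mul_sum]
    apply mul_le_mul_of_nonneg_left _ (by positivity)
    have h3 := tail_le q hS0 ((SMz q (X : ℝ)).filter (fun s : ℕ => ¬ (s : ℝ) ≤ S)) (by
      intro n hn
      rw [Finset.mem_filter, mem_SMz hXnn] at hn
      exact ⟨hn.1.1, (not_le.1 hn.2).le⟩)
    refine h3.trans (le_of_eq ?_)
    rw [hS, ← Real.exp_mul]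
    ring_nf

lemma AA_lower' {b : ℕ} (hb : 2 ≤ b) {δ : ℝ} (hδ : 0 < δ) (hδ1 : δ < 1 / 4) {q : ℕ} {x0 : ℝ}
    (hx0 : ∀ x : ℝ, x0 ≤ x → 1 - δ < (Nat.primeCounting ⌊x⌋₊ : ℝ) * Real.log x / x)
    (h1 : max (max (x0 + 1) 3) (1 / δ) ≤ δ * (Real.log b * q)) (h2 : b ≤ q) :
    (b : ℝ) ^ q * ((1 - δ) ^ 2 / (Real.log b * q) *
      (VB b q - Real.exp (-(δ * (Real.log b * q) / 2)) * ZZ q) -
      q * Real.exp (-((1 - δ) * (Real.log b * q)))) ≤ AA b q := by
  set lb := Real.log b with hlb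
  have hlb0 : 0 < lb := Real.log_pos (by exact_mod_cast hb)
  have hX0 : x0 + 1 ≤ δ * (lb * q) := ((le_max_left _ _).trans (le_max_left _ _)).trans h1
  have hX3 : 3 ≤ δ * (lb * q) := ((le_max_right _ _).trans (le_max_left _ _)).trans h1
  have hXδ : 1 / δ ≤ δ * (lb * q) := (le_max_right _ _).trans h1
  have hq0 : (0 : ℝ) < q := by exact_mod_cast (by omega : 0 < q)
  have hlq : 0 < lb * q := by positivity
  set X := b ^ q - 1 with hX
  have hbr : (2 : ℝ) ≤ b := by exact_mod_cast hb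
  have hbq : (b : ℝ) ^ q = Real.exp (lb * q) := by
    rw [mul_comm, Real.exp_nat_mul, hlb, Real.exp_log (by linarith)]
  have hXr : (X : ℝ) = (b : ℝ) ^ q - 1 := by
    rw [hX, Nat.cast_sub (Nat.one_le_pow _ _ (by omega))]
    push_cast
    rfl
  have hbig : 1 / δ ≤ (b : ℝ) ^ q := by
    rw [hbq]
    have e1 := Real.add_one_le_exp (lb * q)
    have e2 : δ * (lb * q) ≤ 1 * (lb * q) := mul_le_mul_of_nonneg_right (by linarith) hlq.le
    linarith
  have hXge : (1 - δ) * (b : ℝ) ^ q ≤ X := by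
    rw [hXr]
    rw [div_le_iff₀ hδ] at hbig
    linarith
  have hXnn : (0 : ℝ) ≤ X := Nat.cast_nonneg _
  have hXle : (X : ℝ) ≤ (b : ℝ) ^ q := by linarith
  set S := Real.exp (δ * (lb * q)) with hS
  have hS0 : 0 < S := Real.exp_pos _
  have hSX : S ≤ X := by
    refine le_trans ?_ hXge
    rw [hbq]
    have e1 : Real.exp (lb * q) = Real.exp ((1 - δ) * (lb * q)) * S := by
      rw [hS, ← Real.exp_add]; ring_nf
    rw [e1]
    have e2 : 2 ≤ Real.exp ((1 - δ) * (lb * q)) := by
      have := Real.add_one_le_exp ((1 - δ) * (lb * q))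
      have e3 : δ * (lb * q) ≤ (1 - δ) * (lb * q) := mul_le_mul_of_nonneg_right (by linarith) hlq.le
      linarith
    nlinarith
  rw [AA_eq hb h2]
  have hsub : SMz q S ⊆ SMz q (X : ℝ) := by
    intro n hn
    rw [mem_SMz hS0.le] at hn
    rw [mem_SMz hXnn]
    exact ⟨hn.1, hn.2.trans hSX⟩
  refine le_trans ?_ (Finset.sum_le_sum_of_subset_of_nonneg hsub fun i _ _ => by
    split_ifs <;> positivity)
  have hterm : ∀ s ∈ SMz q S, (b : ℝ) ^ q * ((1 - δ) ^ 2 / (lb * q)) * copHom b s - q ≤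
      (if s.Coprime b then (1 : ℝ) else 0) *
        (((Finset.Ioc 0 (X / s)).filter (fun l => l.Prime ∧ q < l)).card : ℝ) := by
    intro s hs
    rw [mem_SMz hS0.le] at hs
    obtain ⟨hs1, hsS⟩ := hs
    have hs0 : 0 < s := SM_pos hs1
    have hs0' : (0 : ℝ) < s := by exact_mod_cast hs0
    have hs1' : (1 : ℝ) ≤ s := by exact_mod_cast hs0
    rw [copHom_apply]
    by_cases hc : s.Coprime b
    · rw [if_pos hc, if_pos hc, one_mul]
      refine le_trans ?_ (le_card_inner _ _)
      set x := (X : ℝ) / s with hx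
      have hfl : X / s = ⌊x⌋₊ := by rw [hx, Nat.floor_div_eq_div]
      have hxlow : Real.exp ((1 - 2 * δ) * (lb * q)) ≤ x := by
        rw [hx, le_div_iff₀ hs0', hXr, hbq]
        have e1 : Real.exp (lb * q) = Real.exp ((1 - 2 * δ) * (lb * q)) *
            (Real.exp (δ * (lb * q)) * Real.exp (δ * (lb * q))) := by
          rw [← Real.exp_add, ← Real.exp_add]; ring_nf
        rw [e1, ← hS]
        have e2 : 1 ≤ Real.exp ((1 - 2 * δ) * (lb * q)) := Real.one_le_exp (by
          apply mul_nonneg (by linarith) hlq.le)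
        have e3 : 4 ≤ S := by
          have := Real.add_one_le_exp (δ * (lb * q))
          linarith
        have e4 : Real.exp ((1 - 2 * δ) * (lb * q)) * s ≤ Real.exp ((1 - 2 * δ) * (lb * q)) * S :=
          mul_le_mul_of_nonneg_left hsS (Real.exp_pos _).le
        have e5 : 1 ≤ Real.exp ((1 - 2 * δ) * (lb * q)) * S := by nlinarith
        have e6 : Real.exp ((1 - 2 * δ) * (lb * q)) * S * 4 ≤
            Real.exp ((1 - 2 * δ) * (lb * q)) * S * S :=
          mul_le_mul_of_nonneg_left e3 (by positivity)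
        nlinarith
      have hx0' : 0 < x := lt_of_lt_of_le (Real.exp_pos _) hxlow
      have hx1' : 1 < x := lt_of_lt_of_le (by
        have e1 := Real.add_one_le_exp ((1 - 2 * δ) * (lb * q))
        have e2 : δ * (lb * q) ≤ (1 - 2 * δ) * (lb * q) :=
          mul_le_mul_of_nonneg_right (by linarith) hlq.le
        linarith : (1 : ℝ) < Real.exp ((1 - 2 * δ) * (lb * q))) hxlow
      have hxx0 : x0 ≤ x := by
        have e1 := Real.add_one_le_exp ((1 - 2 * δ) * (lb * q))
        have e2 : δ * (lb * q) ≤ (1 - 2 * δ) * (lb * q) :=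
          mul_le_mul_of_nonneg_right (by linarith) hlq.le
        linarith
      have hlogx : Real.log x ≤ lb * q := by
        rw [Real.log_le_iff_le_exp hx0', ← hbq, hx, div_le_iff₀ hs0']
        have : (0 : ℝ) < (b : ℝ) ^ q := by positivity
        nlinarith
      have hlogx0 : 0 < Real.log x := Real.log_pos hx1'
      have h3 := hx0 x hxx0
      rw [lt_div_iff₀ hx0'] at h3
      have h4 : (1 - δ) * x / (lb * q) ≤ (Nat.primeCounting (X / s) : ℝ) := by
        rw [hfl, div_le_iff₀ hlq]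
        have : (Nat.primeCounting ⌊x⌋₊ : ℝ) * Real.log x ≤
          (Nat.primeCounting ⌊x⌋₊ : ℝ) * (lb * q) := mul_le_mul_of_nonneg_left hlogx (by positivity)
        linarith
      have h5 : (1 - δ) * (b : ℝ) ^ q * (s : ℝ)⁻¹ ≤ x := by
        rw [hx, div_eq_mul_inv]
        exact mul_le_mul_of_nonneg_right hXge (by positivity)
      have h6 : (b : ℝ) ^ q * ((1 - δ) ^ 2 / (lb * q)) * (s : ℝ)⁻¹ ≤ (1 - δ) * x / (lb * q) := by
        have e1 : (b : ℝ) ^ q * ((1 - δ) ^ 2 / (lb * q)) * (s : ℝ)⁻¹ =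
            (1 - δ) * ((1 - δ) * (b : ℝ) ^ q * (s : ℝ)⁻¹) / (lb * q) := by ring
        rw [e1]
        apply div_le_div_of_nonneg_right _ hlq.le
        exact mul_le_mul_of_nonneg_left h5 (by linarith)
      linarith
    · rw [if_neg hc, if_neg hc]
      simp
  refine le_trans ?_ (Finset.sum_le_sum hterm)
  rw [Finset.sum_sub_distrib, ← Finset.mul_sum, Finset.sum_const, nsmul_eq_mul]
  have hcard : ((SMz q S).card : ℝ) * q ≤ S * q := by
    apply mul_le_mul_of_nonneg_right _ hq0.le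
    have h5 : (SMz q S).card ≤ (Finset.Ioc 0 ⌊S⌋₊).card := by
      apply Finset.card_le_card
      intro n hn
      rw [mem_SMz hS0.le] at hn
      rw [Finset.mem_Ioc]
      exact ⟨SM_pos hn.1, (Nat.le_floor_iff hS0.le).2 hn.2⟩
    rw [Nat.card_Ioc, Nat.sub_zero] at h5
    exact le_trans (by exact_mod_cast h5) (Nat.floor_le hS0.le)
  have hV := VB_le b q hS0
  have hSm : S ^ (-(1 / 2) : ℝ) = Real.exp (-(δ * (lb * q) / 2)) := by
    rw [hS, ← Real.exp_mul]; ring_nf
  rw [hSm] at hV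
  have h7 : (b : ℝ) ^ q * ((1 - δ) ^ 2 / (lb * q)) *
      (VB b q - Real.exp (-(δ * (lb * q) / 2)) * ZZ q) ≤
      (b : ℝ) ^ q * ((1 - δ) ^ 2 / (lb * q)) * ∑ s ∈ SMz q S, copHom b s := by
    apply mul_le_mul_of_nonneg_left (by linarith)
    have : 0 ≤ (1 - δ) ^ 2 / (lb * q) := by positivity
    positivity
  have h8 : (b : ℝ) ^ q * (q * Real.exp (-((1 - δ) * (lb * q)))) = S * q := by
    rw [hbq, hS]
    have : Real.exp (lb * q) * Real.exp (-((1 - δ) * (lb * q))) = Real.exp (δ * (lb * q)) := by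
      rw [← Real.exp_add]; ring_nf
    rw [← this]; ring
  have e9 : (b : ℝ) ^ q * ((1 - δ) ^ 2 / (lb * q) *
      (VB b q - Real.exp (-(δ * (lb * q) / 2)) * ZZ q) - q * Real.exp (-((1 - δ) * (lb * q)))) =
      (b : ℝ) ^ q * ((1 - δ) ^ 2 / (lb * q)) *
      (VB b q - Real.exp (-(δ * (lb * q) / 2)) * ZZ q) -
      (b : ℝ) ^ q * (q * Real.exp (-((1 - δ) * (lb * q)))) := by ring
  rw [e9, h8]
  linarith

/-- **The mean with an error term.** -/
theorem mq_rate {b : ℕ} (hb : 2 ≤ b) : ∃ K : ℝ, 0 < K ∧ ∀ᶠ q : ℕ in atTop,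
    |mq b q - Real.exp Real.eulerMascheroniConstant / Real.log b * (Real.log q / q)| ≤ K / q := by
  obtain ⟨C0, hC0, X0, hX04, hpi⟩ := pi_rate
  obtain ⟨C1, hC1, hV⟩ := Pool.Agent.TH888.R.VV_rate
  obtain ⟨C2, hC2, hZ⟩ := Pool.Agent.TH888.R.ZZ_rate
  set G := Real.exp Real.eulerMascheroniConstant with hG
  have hG0 : 0 < G := Real.exp_pos _
  set lb := Real.log b with hlb
  have hlb0 : 0 < lb := Real.log_pos (by exact_mod_cast hb)
  set ρ := (b.totient : ℝ) / b with hρ
  have hρ0 : 0 < ρ := tot_ratio_pos hb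
  -- `δ = D / log q`
  set D := 2 * C0 + 1 + 2 * (C2 + 1) / lb with hD
  have hD0 : 0 < D := by positivity
  have hDl : C2 + 1 ≤ D * lb / 2 := by
    have : 2 * (C2 + 1) / lb ≤ D := by rw [hD]; linarith
    rw [div_le_iff₀ hlb0] at this
    linarith
  refine ⟨(6 * D * G + 3 * C1) / lb + 1 / ρ + (2 * D * (G + C1) + C1) / lb + 2 / (lb * ρ) + 2 / ρ + 1, by positivity, ?_⟩
  have e1 : ∀ᶠ q : ℕ in atTop, 4 * D + 1 + 1 ≤ Real.log q := log_nat_tendsto.eventually_ge_atTop _
  have e4 : ∀ᶠ q : ℕ in atTop, Real.log q ^ 2 ≤ (q : ℝ) := by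
    have h1 := (Real.isLittleO_pow_log_id_atTop (n := 2)).bound (show (0 : ℝ) < 1 by norm_num)
    have h2 : ∀ᶠ x : ℝ in atTop, Real.log x ^ 2 ≤ x := by
      filter_upwards [h1, eventually_ge_atTop 1] with x hx hx1
      rw [Real.norm_of_nonneg (by positivity), id, Real.norm_of_nonneg (by linarith), one_mul] at hx
      exact hx
    exact tendsto_natCast_atTop_atTop.eventually h2
  have e2 : ∀ᶠ q : ℕ in atTop, (max X0 (Real.sqrt q) + 4 + Real.log q / D) * Real.log q ≤ D * lb * q := by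
    set M := X0 + 5 + 1 / D with hM
    have hM0 : 0 < M := by
      have : 0 < 1 / D := by positivity
      linarith
    set ε := min 1 (D * lb / M) with hε
    have hε0 : 0 < ε := lt_min one_pos (by positivity)
    have h1 := (isLittleO_log_rpow_atTop (show (0 : ℝ) < 1 / 2 by norm_num)).bound hε0
    have h2 : ∀ᶠ x : ℝ in atTop, (max X0 (Real.sqrt x) + 4 + Real.log x / D) * Real.log x ≤ D * lb * x := by
      filter_upwards [h1, eventually_ge_atTop 1] with x hx hx1
      have hl := Real.log_nonneg hx1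
      rw [Real.norm_of_nonneg hl, Real.norm_of_nonneg (by positivity), ← Real.sqrt_eq_rpow] at hx
      have hs : Real.sqrt x * Real.sqrt x = x := Real.mul_self_sqrt (by linarith)
      have hs1 : 1 ≤ Real.sqrt x := Real.one_le_sqrt.2 hx1
      have hε1 : ε ≤ 1 := min_le_left _ _
      have hlog1 : Real.log x ≤ Real.sqrt x := hx.trans (mul_le_of_le_one_left (by linarith) hε1)
      have h3 : max X0 (Real.sqrt x) + 4 + Real.log x / D ≤ M * Real.sqrt x := by
        have h4 : max X0 (Real.sqrt x) ≤ X0 * Real.sqrt x + Real.sqrt x := by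
          have q1 : X0 ≤ X0 * Real.sqrt x := le_mul_of_one_le_right (by linarith) hs1
          have q2 : 0 ≤ X0 * Real.sqrt x := mul_nonneg (by linarith) (by linarith)
          apply max_le
          · linarith
          · linarith
        have h5 : Real.log x / D ≤ 1 / D * Real.sqrt x := by
          rw [one_div_mul_eq_div]
          exact div_le_div_of_nonneg_right hlog1 hD0.le
        have : M * Real.sqrt x = X0 * Real.sqrt x + Real.sqrt x + 4 * Real.sqrt x + 1 / D * Real.sqrt x := by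
          rw [hM]; ring
        rw [this]
        linarith
      calc (max X0 (Real.sqrt x) + 4 + Real.log x / D) * Real.log x ≤
            (M * Real.sqrt x) * (ε * Real.sqrt x) := mul_le_mul h3 hx hl (by positivity)
        _ = M * ε * (Real.sqrt x * Real.sqrt x) := by ring
        _ = M * ε * x := by rw [hs]
        _ ≤ M * (D * lb / M) * x := by
            have := min_le_right 1 (D * lb / M)
            gcongr
        _ = D * lb * x := by field_simp
    exact tendsto_natCast_atTop_atTop.eventually h2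
  have e3 : ∀ᶠ q : ℕ in atTop, (q : ℝ) * Real.exp (-(3 / 4 * (lb * q))) ≤ 1 / q := by
    set c := 3 / 4 * lb with hc
    have hc0 : 0 < c := by positivity
    have h3 := (Real.tendsto_pow_mul_exp_neg_atTop_nhds_zero 2).comp
      ((tendsto_natCast_atTop_atTop (R := ℝ)).const_mul_atTop hc0)
    filter_upwards [h3.eventually_lt_const (show (0 : ℝ) < c ^ 2 by positivity), eventually_ge_atTop 1]
      with q hq hq1
    have hq0 : (0 : ℝ) < q := by exact_mod_cast hq1
    simp only [Function.comp] at hq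
    rw [le_div_iff₀ hq0]
    have e : -(3 / 4 * (lb * (q : ℝ))) = -(c * q) := by rw [hc]; ring
    rw [e]
    have h5 : c ^ 2 * ((q : ℝ) * Real.exp (-(c * q)) * q) < c ^ 2 := by
      calc _ = (c * q) ^ 2 * Real.exp (-(c * q)) := by ring
        _ < _ := hq
    by_contra hcon
    push Not at hcon
    have : c ^ 2 * 1 < c ^ 2 * ((q : ℝ) * Real.exp (-(c * q)) * q) :=
      mul_lt_mul_of_pos_left hcon (by positivity)
    linarith
  filter_upwards [e1, e2, e3, e4, eventually_ge_atTop b, eventually_ge_atTop 3] with q h1 h2 h3 h4 hqb hq3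
  have hq3' : (3 : ℝ) ≤ q := by exact_mod_cast hq3
  have hq0 : (0 : ℝ) < q := by linarith
  set l := Real.log q with hl
  have hl0 : 0 < l := by linarith
  have hlq : 0 < lb * q := by positivity
  set δ := D / l with hδ
  have hδ0 : 0 < δ := by positivity
  have hδ4 : δ < 1 / 4 := by
    rw [hδ, div_lt_iff₀ hl0]
    linarith
  have hδl : δ * l = D := by rw [hδ]; field_simp
  have hδlq : max X0 (Real.sqrt q) + 4 + l / D ≤ δ * (lb * q) := by
    have e : δ * (lb * q) = D * lb * q / l := by rw [hδ]; ring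
    rw [e, le_div_iff₀ hl0]
    exact h2
  have hπ : ∀ x : ℝ, max X0 (Real.sqrt q) ≤ x →
      |(Nat.primeCounting ⌊x⌋₊ : ℝ) * Real.log x / x - 1| < δ := by
    intro x hx
    have hx1 := (le_max_left _ _).trans hx
    have hx2 := (le_max_right _ _).trans hx
    refine lt_of_le_of_lt (hpi x hx1) ?_
    have hlx : l / 2 ≤ Real.log x := by
      have : Real.log (Real.sqrt q) = l / 2 := Real.log_sqrt hq0.le
      rw [← this]
      exact Real.log_le_log (Real.sqrt_pos.2 hq0) hx2
    calc C0 / Real.log x ≤ C0 / (l / 2) := by gcongr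
      _ = 2 * C0 / l := by field_simp
      _ < D / l := by
          apply div_lt_div_of_pos_right _ hl0
          have : 0 < 2 * (C2 + 1) / lb := by positivity
          rw [hD]; linarith
  have hld : 0 < l / D := by positivity
  have hX0m : 4 ≤ max X0 (Real.sqrt q) := hX04.trans (le_max_left _ _)
  have hup := AA_upper' hb hδ0 hδ4 (q := q) (x0 := max X0 (Real.sqrt q)) (fun x hx => by
    linarith [(abs_lt.1 (hπ x hx)).2]) (by
      apply max_le <;> linarith) hqb
  have hlow := AA_lower' hb hδ0 hδ4 (q := q) (x0 := max X0 (Real.sqrt q)) (fun x hx => by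
    linarith [(abs_lt.1 (hπ x hx)).1]) (by
      have e : 1 / δ = l / D := by rw [hδ]; field_simp
      rw [e]
      refine max_le (max_le ?_ ?_) ?_ <;> linarith) hqb
  rw [← hlb] at hup hlow
  -- the Euler products
  obtain ⟨hV1, hV2⟩ := abs_le.1 (hV q (by omega))
  have hVB := VB_eq hb hqb
  rw [← hρ] at hVB
  have hVV0 := VV_nonneg q
  set E := Real.exp (-(δ * (lb * q) / 2)) * ZZ q with hE
  have hE0 : 0 ≤ E := mul_nonneg (Real.exp_pos _).le (ZZ_nonneg q)
  have hE1 : E ≤ 1 / q := by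
    have hZq := hZ q (by omega)
    rw [← hl] at hZq
    have h8 : δ * (lb * q) / 2 ≥ (C2 + 1) * (q / l) := by
      have e : δ * (lb * q) / 2 = (D * lb / 2) * (q / l) := by rw [hδ]; ring
      rw [e]
      exact mul_le_mul_of_nonneg_right hDl (by positivity)
    have h9 : l ≤ q / l := by
      rw [le_div_iff₀ hl0]
      have e : l * l = l ^ 2 := by ring
      rw [e]
      exact h4
    have h10 : (C2 + 1) * (q / l) = C2 * (q / l) + q / l := by ring
    calc E ≤ Real.exp (-(δ * (lb * q) / 2)) * Real.exp (C2 * (q / l)) := by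
          rw [hE]; gcongr
      _ = Real.exp (-(δ * (lb * q) / 2) + C2 * (q / l)) := by rw [← Real.exp_add]
      _ ≤ Real.exp (-l) := Real.exp_le_exp.2 (by linarith)
      _ = 1 / q := by rw [Real.exp_neg, hl, Real.exp_log hq0, one_div]
  have hbq : (0 : ℝ) < (b : ℝ) ^ q := by
    have : (0 : ℝ) < b := by exact_mod_cast (by omega : 0 < b)
    positivity
  have hmq : mq b q = AA b q / (b : ℝ) ^ q / ρ := by
    unfold mq
    rw [tot_pow hb (by omega), ← hρ]
    field_simp
  have hG1 : G / lb * (l / q) = G * l / (lb * q) := by field_simp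
  rw [hG1]
  have hinvq : 0 < 1 / (q : ℝ) := by positivity
  have hq1 : 1 / (q : ℝ) ≤ 1 := by
    rw [div_le_one hq0]; linarith
  rw [abs_le]
  constructor
  · -- lower bound
    have g1 : (1 - δ) ^ 2 / (lb * q) * (VB b q - E) - q * Real.exp (-((1 - δ) * (lb * q))) ≤
        AA b q / (b : ℝ) ^ q := by
      rw [le_div_iff₀ hbq, mul_comm]
      exact hlow
    have g2 : q * Real.exp (-((1 - δ) * (lb * q))) ≤ 1 / q := by
      refine le_trans (mul_le_mul_of_nonneg_left (Real.exp_le_exp.2 ?_) hq0.le) h3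
      have : 3 / 4 * (lb * q) ≤ (1 - δ) * (lb * q) :=
        mul_le_mul_of_nonneg_right (by linarith) hlq.le
      linarith
    have g3 : ((1 - δ) ^ 2 / (lb * q) * (VB b q - E) - 1 / q) / ρ ≤ mq b q := by
      rw [hmq]
      exact div_le_div_of_nonneg_right (by linarith) hρ0.le
    have g4 : ((1 - δ) ^ 2 / (lb * q) * (VB b q - E) - 1 / q) / ρ =
        (1 - δ) ^ 2 * VV q / (lb * q) - (1 - δ) ^ 2 * E / (lb * q * ρ) - 1 / (q * ρ) := by
      rw [hVB]
      field_simp
    rw [g4] at g3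
    have hδ2 : (1 - δ) ^ 2 ≤ 1 := pow_le_one₀ (by linarith) (by linarith)
    have hδ3 : 1 - 2 * δ ≤ (1 - δ) ^ 2 := by
      have e : (1 - δ) ^ 2 = 1 - 2 * δ + δ ^ 2 := by ring
      rw [e]
      linarith [sq_nonneg δ]
    have g5 : G * l - (2 * D * (G + C1) + C1) ≤ (1 - δ) ^ 2 * VV q := by
      have k1 : (1 - 2 * δ) * VV q ≤ (1 - δ) ^ 2 * VV q := mul_le_mul_of_nonneg_right hδ3 hVV0
      have k2 : 2 * δ * VV q ≤ 2 * δ * (G * l + C1) := mul_le_mul_of_nonneg_left (by linarith) (by positivity)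
      have k3 : 2 * δ * (G * l + C1) = 2 * G * (δ * l) + 2 * δ * C1 := by ring
      have k4 : δ * C1 ≤ D * C1 := by
        apply mul_le_mul_of_nonneg_right _ hC1.le
        rw [hδ, div_le_iff₀ hl0]
        have k5 : D * 1 ≤ D * l := mul_le_mul_of_nonneg_left (by linarith) hD0.le
        linarith
      rw [k3, hδl] at k2
      have k6 : (1 - 2 * δ) * VV q = VV q - 2 * δ * VV q := by ring
      have k7 : 2 * D * (G + C1) + C1 = 2 * G * D + 2 * (D * C1) + C1 := by ring
      have k8 : 2 * δ * C1 = 2 * (δ * C1) := by ring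
      rw [k7]
      rw [k6] at k1
      rw [k8] at k2
      linarith
    have g6 : (G * l - (2 * D * (G + C1) + C1)) / (lb * q) ≤ (1 - δ) ^ 2 * VV q / (lb * q) :=
      div_le_div_of_nonneg_right g5 hlq.le
    have g7 : (1 - δ) ^ 2 * E / (lb * q * ρ) ≤ 1 / (lb * ρ) * (1 / q) := by
      have k1 : (1 - δ) ^ 2 * E ≤ 1 := by
        calc (1 - δ) ^ 2 * E ≤ 1 * (1 / q) := mul_le_mul hδ2 hE1 hE0 zero_le_one
          _ ≤ 1 := by linarith
      calc (1 - δ) ^ 2 * E / (lb * q * ρ) ≤ 1 / (lb * q * ρ) :=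
            div_le_div_of_nonneg_right k1 (by positivity)
        _ = _ := by field_simp
    have g8 : (G * l - (2 * D * (G + C1) + C1)) / (lb * q) = G * l / (lb * q) -
        (2 * D * (G + C1) + C1) / lb * (1 / q) := by field_simp
    have g9 : 1 / (q * ρ) = 1 / ρ * (1 / q) := by field_simp
    rw [g8] at g6
    rw [g9] at g3
    have g10 : ((6 * D * G + 3 * C1) / lb + 1 / ρ + (2 * D * (G + C1) + C1) / lb + 2 / (lb * ρ) + 2 / ρ + 1) / q =
        (6 * D * G + 3 * C1) / lb * (1 / q) + 1 / ρ * (1 / q) + (2 * D * (G + C1) + C1) / lb * (1 / q) +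
          2 / (lb * ρ) * (1 / q) + 2 / ρ * (1 / q) + 1 / q := by ring
    rw [g10]
    have p1 : 0 ≤ (6 * D * G + 3 * C1) / lb * (1 / q) := by positivity
    have p2 : 0 ≤ 1 / (lb * ρ) * (1 / (q : ℝ)) := by positivity
    have p3 : 0 ≤ 1 / ρ * (1 / (q : ℝ)) := by positivity
    have p4 : 2 / (lb * ρ) * (1 / (q : ℝ)) = 2 * (1 / (lb * ρ) * (1 / (q : ℝ))) := by ring
    have p5 : 2 / ρ * (1 / (q : ℝ)) = 2 * (1 / ρ * (1 / (q : ℝ))) := by ring
    rw [p4, p5]
    linarith
  · -- upper bound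
    have g1 : AA b q / (b : ℝ) ^ q ≤ (1 + δ) / ((1 - 2 * δ) * (lb * q)) * VB b q + E := by
      rw [div_le_iff₀ hbq, mul_comm]
      exact hup
    have hδ5 : 0 < 1 - 2 * δ := by linarith
    have g2 : (1 + δ) / ((1 - 2 * δ) * (lb * q)) ≤ (1 + 6 * δ) / (lb * q) := by
      rw [div_le_div_iff₀ (by positivity) hlq]
      have e1 : 0 ≤ δ * (1 - 4 * δ) := mul_nonneg hδ0.le (by linarith)
      have e2 : (1 + 6 * δ) * (1 - 2 * δ) = 1 + δ + 3 * (δ * (1 - 4 * δ)) := by ring
      have e3 : (1 + δ) ≤ (1 + 6 * δ) * (1 - 2 * δ) := by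
        rw [e2]
        linarith
      have e4 := mul_le_mul_of_nonneg_right e3 hlq.le
      have e5 : (1 + 6 * δ) * (1 - 2 * δ) * (lb * q) = (1 + 6 * δ) * ((1 - 2 * δ) * (lb * q)) := by ring
      rw [e5] at e4
      exact e4
    have hVB0 : 0 ≤ VB b q := by rw [hVB]; positivity
    have g3 : mq b q ≤ (1 + 6 * δ) * VV q / (lb * q) + E / ρ := by
      rw [hmq]
      calc AA b q / (b : ℝ) ^ q / ρ ≤ ((1 + 6 * δ) / (lb * q) * VB b q + E) / ρ :=
            div_le_div_of_nonneg_right (g1.trans (by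
              have := mul_le_mul_of_nonneg_right g2 hVB0
              linarith)) hρ0.le
        _ = _ := by rw [hVB]; field_simp
    have g4 : (1 + 6 * δ) * VV q ≤ G * l + (6 * D * G + 3 * C1) := by
      have k1 : (1 + 6 * δ) * VV q ≤ (1 + 6 * δ) * (G * l + C1) :=
        mul_le_mul_of_nonneg_left (by linarith) (by linarith)
      have k2 : (1 + 6 * δ) * (G * l + C1) = G * l + C1 + 6 * G * (δ * l) + 6 * δ * C1 := by ring
      rw [k2, hδl] at k1
      have k3 : 6 * δ * C1 ≤ 2 * C1 := mul_le_mul_of_nonneg_right (by linarith) hC1.le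
      linarith
    have g5 : (1 + 6 * δ) * VV q / (lb * q) ≤ G * l / (lb * q) + (6 * D * G + 3 * C1) / lb * (1 / q) := by
      calc (1 + 6 * δ) * VV q / (lb * q) ≤ (G * l + (6 * D * G + 3 * C1)) / (lb * q) :=
            div_le_div_of_nonneg_right g4 hlq.le
        _ = _ := by field_simp
    have g6 : E / ρ ≤ 1 / ρ * (1 / q) := by
      calc E / ρ ≤ (1 / q) / ρ := div_le_div_of_nonneg_right hE1 hρ0.le
        _ = _ := by ring
    have g10 : ((6 * D * G + 3 * C1) / lb + 1 / ρ + (2 * D * (G + C1) + C1) / lb + 2 / (lb * ρ) + 2 / ρ + 1) / q =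
        (6 * D * G + 3 * C1) / lb * (1 / q) + 1 / ρ * (1 / q) + (2 * D * (G + C1) + C1) / lb * (1 / q) +
          2 / (lb * ρ) * (1 / q) + 2 / ρ * (1 / q) + 1 / q := by ring
    rw [g10]
    have p1 : 0 ≤ (2 * D * (G + C1) + C1) / lb * (1 / (q : ℝ)) := by positivity
    have p2 : 0 ≤ 2 / (lb * ρ) * (1 / (q : ℝ)) := by positivity
    have p3 : 0 ≤ 2 / ρ * (1 / (q : ℝ)) := by positivity
    linarith

end Pool.Agent.K1H92.LD
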